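import Mathlib

/-!
Blockwise congruences for truncated binomial sums: general lemmas.
-/

namespace Pool.Agent.Lib_helper24.Dwork

open Finset

/-- The ring hypotheses: naturals prime to `p` are units, nonzero naturals are regular. -/
structure Loc (p : ℕ) (R : Type*) [CommRing R] : Prop where
  unit : ∀ l : ℕ, ¬ p ∣ l → IsUnit (l : R)
  reg : ∀ n : ℕ, n ≠ 0 → ∀ x : R, (n : R) * x = 0 → x = 0

/-- inverse of a natural number in the ring. -/
noncomputable def iv (R : Type*) [CommRing R] (l : ℕ) : R := Ring.inverse (l : R)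

/-- signed binomial coefficient with upper index lowered by one. -/
def w (R : Type*) [CommRing R] (M m : ℕ) : R := (-1) ^ m * ((M - 1).choose m : R)

/-- signed binomial coefficient. -/
def ph (R : Type*) [CommRing R] (M m : ℕ) : R := (-1) ^ m * (M.choose m : R)

/-- the prime-to-`p` part. -/
noncomputable def E (R : Type*) [CommRing R] (p M m : ℕ) : R :=
  ∏ i ∈ range (m + 1), if p ∣ i then 1 else 1 - (M : R) * iv R i

/-- harmonic sum over indices prime to `p`. -/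
noncomputable def H (R : Type*) [CommRing R] (p m : ℕ) : R :=
  ∑ i ∈ range m, if p ∣ i then 0 else iv R i

section
variable {R : Type*} [CommRing R] {p : ℕ}

theorem Loc.mul_iv (h : Loc p R) {l : ℕ} (hl : ¬ p ∣ l) : (l : R) * iv R l = 1 :=
  Ring.mul_inverse_cancel _ (h.unit l hl)

theorem Loc.cancel (h : Loc p R) {n : ℕ} (hn : n ≠ 0) {x y : R} (hxy : (n : R) * x = n * y) :
    x = y :=
  sub_eq_zero.mp (h.reg n hn _ (by rw [mul_sub, hxy, sub_self]))

theorem Loc.cancel_dvd (h : Loc p R) {n : ℕ} (hn : n ≠ 0) {x y : R}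
    (hxy : (n : R) * x ∣ n * y) : x ∣ y := by
  obtain ⟨c, hc⟩ := hxy
  exact ⟨c, h.cancel hn (by rw [hc, mul_assoc])⟩

theorem w_zero (M : ℕ) : w R M 0 = 1 := by simp [w]

theorem ph_zero (M : ℕ) : ph R M 0 = 1 := by simp [ph]

theorem w_succ (M m : ℕ) (hM : M ≠ 0) :
    ((m + 1 : ℕ) : R) * w R M (m + 1) = (((m + 1 : ℕ) : R) - M) * w R M m := by
  obtain ⟨N, rfl⟩ := Nat.exists_eq_succ_of_ne_zero hM
  simp only [w, Nat.succ_sub_one]
  have key := Nat.choose_succ_right_eq N m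
  rcases le_or_gt m N with hmN | hmN
  · have k2 : ((N.choose (m + 1) : ℕ) : R) * ((m : R) + 1) = (N.choose m : R) * ((N : R) - m) := by
      have := congrArg (Nat.cast : ℕ → R) key
      push_cast [Nat.cast_sub hmN] at this
      exact this
    push_cast
    rw [pow_succ]
    linear_combination (-1 : R) ^ m * (-1) * k2
  · rw [Nat.choose_eq_zero_of_lt hmN, Nat.choose_eq_zero_of_lt (Nat.lt_succ_of_lt hmN)]
    simp

theorem ph_succ (M m : ℕ) (hM : M ≠ 0) :
    ((m + 1 : ℕ) : R) * ph R M (m + 1) = -(M : R) * w R M m := by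
  obtain ⟨N, rfl⟩ := Nat.exists_eq_succ_of_ne_zero hM
  simp only [w, ph, Nat.succ_sub_one, Nat.succ_eq_add_one]
  have key := Nat.add_one_mul_choose_eq N m
  have := congrArg (Nat.cast : ℕ → R) key
  push_cast at this ⊢
  rw [pow_succ]
  linear_combination (-1 : R) ^ m * this

theorem w_factor (h : Loc p R) (hp : p.Prime) {M : ℕ} (hM : M ≠ 0) (m : ℕ) :
    w R (p * M) m = w R M (m / p) * E R p (p * M) m := by
  induction m with
  | zero => simp [w_zero, E]
  | succ m ih =>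
    have hrec := w_succ (R := R) (p * M) m (mul_ne_zero hp.ne_zero hM)
    have hE : E R p (p * M) (m + 1) = E R p (p * M) m *
        (if p ∣ m + 1 then 1 else 1 - ((p * M : ℕ) : R) * iv R (m + 1)) := by
      rw [E, prod_range_succ, ← E]
    by_cases hd : p ∣ m + 1
    · have h1 := Nat.succ_div_of_dvd hd
      have h3 : m + 1 = p * (m / p + 1) := by
        rw [← h1]; exact (Nat.mul_div_cancel' hd).symm
      rw [hE, if_pos hd, mul_one, h1]
      have hrec2 := w_succ (R := R) M (m / p) hM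
      apply h.cancel (n := m + 1) (Nat.succ_ne_zero m)
      rw [hrec, ih]
      rw [h3]
      push_cast at hrec2 ⊢
      linear_combination -(p : R) * E R p (p * M) m * hrec2
    · have h1 := Nat.succ_div_of_not_dvd hd
      rw [hE, if_neg hd, h1]
      apply h.cancel (n := m + 1) (Nat.succ_ne_zero m)
      rw [hrec, ih]
      have := h.mul_iv hd
      push_cast at this ⊢
      linear_combination w R M (m / p) * E R p (p * M) m * (p : R) * M * this

theorem E_dvd (M m : ℕ) : (M : R) ∣ E R p M m - 1 := by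
  rw [E]
  induction (m + 1) with
  | zero => simp
  | succ k ih =>
    rw [prod_range_succ]
    split_ifs with hd
    · simpa using ih
    · obtain ⟨c, hc⟩ := ih
      refine ⟨c - (∏ i ∈ range k, if p ∣ i then (1 : R) else 1 - (M : R) * iv R i) * iv R k, ?_⟩
      linear_combination hc

theorem E_dvd_sq (M m : ℕ) : (M : R) ^ 2 ∣ E R p M m - 1 + M * H R p (m + 1) := by
  rw [E, H]
  induction (m + 1) with
  | zero => simp
  | succ k ih =>
    rw [prod_range_succ, sum_range_succ]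
    split_ifs with hd
    · simpa using ih
    · have h1 : (M : R) ∣ (∏ i ∈ range k, if p ∣ i then (1 : R) else 1 - (M : R) * iv R i) - 1 := by
        obtain ⟨c, hc⟩ := ih
        exact ⟨M * c - ∑ i ∈ range k, (if p ∣ i then 0 else iv R i), by linear_combination hc⟩
      obtain ⟨c, hc⟩ := ih
      obtain ⟨d, hd⟩ := h1
      refine ⟨c - d * iv R k, ?_⟩
      linear_combination hc - (M : R) * iv R k * hd

theorem w_dvd (h : Loc p R) (hp : p.Prime) {M : ℕ} (hM : M ≠ 0) (m : ℕ) :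
    ((p * M : ℕ) : R) ∣ w R (p * M) m - w R M (m / p) := by
  rw [w_factor h hp hM]
  have := E_dvd (R := R) (p := p) (p * M) m
  have h2 : w R M (m / p) * E R p (p * M) m - w R M (m / p)
      = w R M (m / p) * (E R p (p * M) m - 1) := by ring
  rw [h2]
  exact Dvd.dvd.mul_left this _

theorem H_dvd (h : Loc p R) {N : ℕ} (hN : p ∣ N) : (N : R) ∣ 2 * H R p N := by
  set f : ℕ → R := fun i => if p ∣ i then 0 else iv R i with hf
  have h1 : ∑ j ∈ range N, f (j + 1) = ∑ j ∈ range N, f j := by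
    have a := sum_range_succ f N
    have b := sum_range_succ' f N
    have c : f N = 0 := by simp [hf, hN]
    have d : f 0 = 0 := by simp [hf]
    rw [c, add_zero] at a
    rw [d, add_zero] at b
    rw [← b, a]
  have h2 : ∑ j ∈ range N, f (N - 1 - j + 1) = ∑ j ∈ range N, f (j + 1) :=
    sum_range_reflect (fun j => f (j + 1)) N
  have h3 : 2 * H R p N = ∑ j ∈ range N, (f j + f (N - 1 - j + 1)) := by
    rw [sum_add_distrib, h2, h1, H, two_mul]
  rw [h3]
  apply dvd_sum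
  intro j hj
  have hj' : j < N := mem_range.mp hj
  have e1 : N - 1 - j + 1 = N - j := by omega
  rw [e1]
  by_cases hpj : p ∣ j
  · have : p ∣ N - j := Nat.dvd_sub hN hpj
    simp [hf, hpj, this]
  · have hpn : ¬ p ∣ N - j := by
      intro hh
      apply hpj
      have := Nat.dvd_sub hN hh
      rwa [Nat.sub_sub_self hj'.le] at this
    simp only [hf, hpj, hpn, if_false]
    have a1 := h.mul_iv hpj
    have a2 := h.mul_iv hpn
    rw [Nat.cast_sub hj'.le] at a2
    refine ⟨iv R j * iv R (N - j), ?_⟩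
    linear_combination -(iv R (N - j)) * a1 - iv R j * a2

/-- The light Jacobsthal type congruence for both kinds of signed binomials. -/
theorem E_two (h : Loc p R) (hp : p.Prime) (M b : ℕ) (hb : b ≠ 0) :
    ∃ X Y : R, 2 * (E R p (p * M) (p * b - 1) - 1)
      = -((p * M : ℕ) : R) * ((p * b : ℕ) : R) * X + 2 * ((p * M : ℕ) : R) ^ 2 * Y := by
  have hpb : p * b - 1 + 1 = p * b := by
    have : 0 < p * b := Nat.mul_pos hp.pos (Nat.pos_of_ne_zero hb)
    omega
  obtain ⟨Y, hY⟩ := E_dvd_sq (R := R) (p := p) (p * M) (p * b - 1)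
  rw [hpb] at hY
  obtain ⟨X, hX⟩ := H_dvd h (dvd_mul_right p b)
  exact ⟨X, Y, by linear_combination 2 * hY - ((p * M : ℕ) : R) * hX⟩

theorem pb_div (hp : p.Prime) {b : ℕ} (hb : b ≠ 0) : (p * b - 1) / p = b - 1 := by
  obtain ⟨c, rfl⟩ := Nat.exists_eq_succ_of_ne_zero hb
  have h1 : p * (c + 1) = (p * (c + 1) - 1) + 1 := by
    have : 0 < p * (c + 1) := Nat.mul_pos hp.pos (Nat.succ_pos c)
    omega
  have h2 := Nat.succ_div_of_dvd (a := p * (c + 1) - 1) (b := p) (by rw [← h1]; exact dvd_mul_right _ _)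
  rw [← h1, Nat.mul_div_cancel_left _ hp.pos] at h2
  simp only [Nat.succ_eq_add_one, Nat.add_sub_cancel]
  omega

theorem w_last (h : Loc p R) (hp : p.Prime) {m K : ℕ} (hm : m ≠ 0) (hK : K ≠ 0) :
    (m : R) * ((p * K : ℕ) : R) ^ 2 ∣
      2 * (w R (p * (m * K)) (p * K - 1) - w R (m * K) (K - 1)) := by
  obtain ⟨X, Y, hXY⟩ := E_two h hp (m * K) K hK
  rw [w_factor h hp (mul_ne_zero hm hK), pb_div hp hK]
  refine ⟨w R (m * K) (K - 1) * (-X + 2 * (m : R) * Y), ?_⟩
  push_cast at hXY ⊢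
  linear_combination w R (m * K) (K - 1) * hXY

theorem ph_mul (h : Loc p R) (hp : p.Prime) {M : ℕ} (hM : M ≠ 0) (b : ℕ) :
    ((p * M : ℕ) : R) ^ 2 ∣ 2 * (ph R (p * M) (p * b) - ph R M b) := by
  rcases Nat.eq_zero_or_pos b with rfl | hbpos
  · simp [ph_zero]
  have hb : b ≠ 0 := hbpos.ne'
  obtain ⟨c, rfl⟩ := Nat.exists_eq_succ_of_ne_zero hb
  obtain ⟨X, Y, hXY⟩ := E_two h hp M (c + 1) (Nat.succ_ne_zero c)
  have hpos : 0 < p * (c + 1) := Nat.mul_pos hp.pos (Nat.succ_pos c)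
  have e1 : p * (c + 1) - 1 + 1 = p * (c + 1) := by omega
  have r1 := ph_succ (R := R) (p * M) (p * (c + 1) - 1) (mul_ne_zero hp.ne_zero hM)
  rw [e1] at r1
  have r2 := ph_succ (R := R) M c hM
  have r3 := w_factor h hp hM (p * (c + 1) - 1)
  rw [pb_div hp (Nat.succ_ne_zero c), Nat.succ_sub_one] at r3
  have key : ph R (p * M) (p * (c + 1)) = ph R M (c + 1) * E R p (p * M) (p * (c + 1) - 1) := by
    apply h.cancel (n := p * (c + 1)) hpos.ne'
    rw [r1, r3]
    push_cast at r2 ⊢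
    linear_combination -(p : R) * E R p (p * M) (p * (c + 1) - 1) * r2
  simp only [Nat.succ_eq_add_one]
  rw [key]
  refine ⟨w R M c * X + 2 * ph R M (c + 1) * Y, ?_⟩
  push_cast at hXY r2 ⊢
  linear_combination ph R M (c + 1) * hXY - (p : R) * (p : R) * (M : R) * X * r2


/-- the summand `z^l / l`, zero at multiples of `p`. -/
noncomputable def f (p : ℕ) (z : R) (l : ℕ) : R := if p ∣ l then 0 else z ^ l * iv R l

/-- sum over one block of length `p`. -/
noncomputable def g (p : ℕ) (z : R) (a : ℕ) : R := ∑ b ∈ range p, f p z (p * a + b)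

/-- sum over a block of length `N`. -/
def blk (N : ℕ) (β : ℕ → R) (c : ℕ) : R := ∑ a ∈ range N, β (N * c + a)

theorem sum_range_mul (φ : ℕ → R) (N K : ℕ) :
    ∑ l ∈ range (N * K), φ l = ∑ b ∈ range K, ∑ a ∈ range N, φ (N * b + a) := by
  induction K with
  | zero => simp
  | succ K ih => rw [Nat.mul_succ, sum_range_add, ih, sum_range_succ]

theorem blk_mul (N K : ℕ) (β : ℕ → R) (c : ℕ) :
    blk (N * K) β c = blk K (blk N β) c := by
  rw [blk, sum_range_mul, blk]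
  apply sum_congr rfl
  intro b _
  rw [blk]
  apply sum_congr rfl
  intro a _
  congr 1
  ring

/-- One step of the block argument. -/
theorem step (h : Loc p R) (hp : p.Prime) {M : ℕ} (hM : M ≠ 0) (N : ℕ) (β : ℕ → R) (d : R)
    (hd : ∀ c, d ∣ β c) :
    ((p * M : ℕ) : R) * d ∣ ∑ c ∈ range (p * N), w R (p * M) c * β c
      - ∑ c ∈ range N, w R M c * blk p β c := by
  rw [sum_range_mul, ← sum_sub_distrib]
  apply dvd_sum
  intro c _
  rw [blk, mul_sum, ← sum_sub_distrib]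
  apply dvd_sum
  intro b hb
  have hb' : b < p := mem_range.mp hb
  have e : (p * c + b) / p = c := by
    rw [Nat.mul_add_div hp.pos, Nat.div_eq_of_lt hb', add_zero]
  have h1 := w_dvd h hp hM (p * c + b)
  rw [e] at h1
  rw [← sub_mul]
  exact mul_dvd_mul h1 (hd _)

theorem step_f (h : Loc p R) (hp : p.Prime) {M : ℕ} (hM : M ≠ 0) (N : ℕ) (z : R) :
    ((p * M : ℕ) : R) ∣ ∑ a ∈ range (p * N), w R (p * M) (a - 1) * f p z a
      - ∑ c ∈ range N, w R M c * g p z c := by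
  rw [sum_range_mul, ← sum_sub_distrib]
  apply dvd_sum
  intro c _
  rw [g, mul_sum, ← sum_sub_distrib]
  apply dvd_sum
  intro b hb
  have hb' : b < p := mem_range.mp hb
  rcases Nat.eq_zero_or_pos b with rfl | hb0
  · simp [f]
  have e : (p * c + b - 1) / p = c := by
    rw [Nat.add_sub_assoc hb0, Nat.mul_add_div hp.pos, Nat.div_eq_of_lt (by omega), add_zero]
  have h1 := w_dvd h hp hM (p * c + b - 1)
  rw [e] at h1
  rw [← sub_mul]
  exact Dvd.dvd.mul_right h1 _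

/-- The block lemma. -/
theorem block (h : Loc p R) (hp : p.Prime) {m : ℕ} (hm : m ≠ 0) (β : ℕ → R) (T : ℕ)
    (hβ : ∀ t < T, ∀ c, ((p ^ (t + 1) : ℕ) : R) ∣ blk (p ^ t) β c) (s : ℕ) :
    ((p ^ (s + T + 1) : ℕ) : R) ∣ ∑ a ∈ range (p ^ (s + T)), w R (m * p ^ (s + T)) a * β a
      - ∑ c ∈ range (p ^ s), w R (m * p ^ s) c * blk (p ^ T) β c := by
  induction T generalizing s with
  | zero =>
    simp only [add_zero, pow_zero, blk, range_one, sum_singleton, one_mul, sub_self, dvd_zero]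
  | succ T ih =>
    have h1 := ih (fun t ht c => hβ t (Nat.lt_succ_of_lt ht) c) (s + 1)
    have e : s + 1 + T = s + (T + 1) := by ring
    rw [e] at h1
    have h2 := step h hp (M := m * p ^ s) (mul_ne_zero hm (pow_ne_zero _ hp.ne_zero)) (p ^ s)
      (blk (p ^ T) β) ((p ^ (T + 1) : ℕ) : R) (hβ T (Nat.lt_succ_self T))
    have e2 : p * (m * p ^ s) = m * p ^ (s + 1) := by ring
    have e3 : p * p ^ s = p ^ (s + 1) := by ring
    rw [e2, e3] at h2
    have h3 : ((p ^ (s + (T + 1) + 1) : ℕ) : R) ∣ ((m * p ^ (s + 1) : ℕ) : R) *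
        ((p ^ (T + 1) : ℕ) : R) := by
      refine ⟨(m : R), ?_⟩
      push_cast
      ring
    have h4 := dvd_add h1 (h3.trans h2)
    have h5 : ∀ c, blk (p ^ (T + 1)) β c = blk p (blk (p ^ T) β) c := by
      intro c
      rw [pow_succ, blk_mul]
    simp only [h5]
    convert h4 using 1
    ring

/-- periodic behaviour of the summand. -/
theorem f_shift (h : Loc p R) {P : ℕ} (hP : p ∣ P) (z : R) (c l : ℕ) :
    (P : R) ∣ f p z (P * c + l) - z ^ (P * c) * f p z l := by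
  unfold f
  by_cases hl : p ∣ l
  · have : p ∣ P * c + l := dvd_add (Dvd.dvd.mul_right hP c) hl
    simp [hl, this]
  · have h2 : ¬ p ∣ P * c + l := by
      intro hh
      exact hl ((Nat.dvd_add_right (Dvd.dvd.mul_right hP c)).mp hh)
    rw [if_neg hl, if_neg h2]
    have a1 := h.mul_iv hl
    have a2 := h.mul_iv h2
    push_cast at a2
    refine ⟨-z ^ (P * c + l) * c * iv R l * iv R (P * c + l), ?_⟩
    rw [pow_add]
    linear_combination -z ^ (P * c) * z ^ l * iv R (P * c + l) * a1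
      + z ^ (P * c) * z ^ l * iv R l * a2

/-- the full block sum. -/
noncomputable def F (p : ℕ) (z : R) (P : ℕ) : R := ∑ l ∈ range P, f p z l

theorem blk_f (h : Loc p R) {P : ℕ} (hP : p ∣ P) (z : R) (c : ℕ) :
    (P : R) ∣ blk P (f p z) c - z ^ (P * c) * F p z P := by
  rw [blk, F, mul_sum, ← sum_sub_distrib]
  apply dvd_sum
  intro l _
  exact f_shift h hP z c l

theorem blk_g (z : R) (N c : ℕ) : blk N (g p z) c = blk (p * N) (f p z) c := by
  rw [blk_mul]; rfl

/-- the model function. -/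
def mdl (p : ℕ) (z κ : R) (a : ℕ) : R := κ * (z ^ (p * a) - z ^ (p * (a + 1)))

theorem blk_mdl (z κ : R) (N c : ℕ) :
    blk N (mdl p z κ) c = z ^ (p * N * c) * (κ * (1 - z ^ (p * N))) := by
  have h1 : ∀ K, ∑ a ∈ range K, mdl p z κ (N * c + a)
      = κ * (z ^ (p * (N * c)) - z ^ (p * (N * c + K))) := by
    intro K
    induction K with
    | zero => simp
    | succ K ih => rw [sum_range_succ, ih, mdl]; ring
  rw [blk, h1]
  have e1 : p * (N * c) = p * N * c := by ring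
  have e2 : p * (N * c + N) = p * N * c + p * N := by ring
  rw [e1, e2, pow_add]
  ring

/-- the truncated sum `V`. -/
def V (M K : ℕ) (x : R) : R := ∑ a ∈ range K, w R M a * (x ^ a - x ^ (a + 1))

theorem V_eq (M : ℕ) (hM : M ≠ 0) (K : ℕ) (x : R) :
    V M K x = ∑ a ∈ range (K + 1), ph R M a * x ^ a - w R M K * x ^ K := by
  induction K with
  | zero => simp [V, ph_zero, w_zero]
  | succ K ih =>
    rw [V, sum_range_succ, ← V, ih, sum_range_succ _ (K + 1)]
    obtain ⟨N, rfl⟩ := Nat.exists_eq_succ_of_ne_zero hM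
    have key : ph R (N + 1) (K + 1) = w R (N + 1) (K + 1) - w R (N + 1) K := by
      simp only [ph, w, Nat.add_sub_cancel, Nat.choose_succ_succ, Nat.succ_eq_add_one]
      push_cast
      ring
    simp only [Nat.succ_eq_add_one]
    rw [key]
    ring

theorem V_full (M : ℕ) (hM : M ≠ 0) (x : R) : V M M x = (1 - x) ^ M := by
  rw [V_eq M hM]
  have h1 : w R M M = 0 := by
    rw [w, Nat.choose_eq_zero_of_lt (by omega)]
    simp
  rw [h1, zero_mul, sub_zero, sub_eq_neg_add, add_pow]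
  apply sum_congr rfl
  intro a _
  rw [one_pow, mul_one, neg_pow, ph]
  ring


theorem V_eq' (M : ℕ) (hM : M ≠ 0) (K : ℕ) (hK : K ≠ 0) (x : R) :
    V M K x = ∑ a ∈ range K, ph R M a * x ^ a - w R M (K - 1) * x ^ K := by
  rw [V_eq M hM, sum_range_succ]
  obtain ⟨N, rfl⟩ := Nat.exists_eq_succ_of_ne_zero hM
  obtain ⟨L, rfl⟩ := Nat.exists_eq_succ_of_ne_zero hK
  have key : ph R (N + 1) (L + 1) = w R (N + 1) (L + 1) - w R (N + 1) L := by
    simp only [ph, w, Nat.add_sub_cancel, Nat.choose_succ_succ, Nat.succ_eq_add_one]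
    push_cast
    ring
  simp only [Nat.succ_eq_add_one, Nat.add_sub_cancel]
  rw [key]
  ring

theorem ph_f (h : Loc p R) (M : ℕ) (hM : M ≠ 0) (z : R) (a : ℕ) :
    ph R M a * z ^ a = (if p ∣ a then ph R M a * z ^ a else 0)
      - (M : R) * (w R M (a - 1) * f p z a) := by
  unfold f
  split_ifs with hd
  · simp
  · rcases Nat.eq_zero_or_pos a with rfl | ha
    · simp at hd
    obtain ⟨b, rfl⟩ := Nat.exists_eq_succ_of_ne_zero ha.ne'
    have h1 := ph_succ (R := R) M b hM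
    have h2 := h.mul_iv hd
    simp only [Nat.succ_eq_add_one, Nat.add_sub_cancel] at *
    linear_combination z ^ (b + 1) * iv R (b + 1) * h1 - ph R M (b + 1) * z ^ (b + 1) * h2

theorem sum_mult (hp : p.Prime) (φ : ℕ → R) (K : ℕ) :
    ∑ a ∈ range (p * K), (if p ∣ a then φ a else 0) = ∑ c ∈ range K, φ (p * c) := by
  rw [sum_range_mul]
  apply sum_congr rfl
  intro c _
  rw [sum_eq_single 0]
  · simp
  · intro b hb hb0
    have hb' : b < p := mem_range.mp hb
    rw [if_neg]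
    intro hh
    have := (Nat.dvd_add_right (dvd_mul_right p c)).mp hh
    exact hb0 (Nat.eq_zero_of_dvd_of_lt this hb')
  · intro hh
    exact absurd (mem_range.mpr hp.pos) hh

theorem sum_ph (h : Loc p R) (hp : p.Prime) {M : ℕ} (hM : M ≠ 0) (K : ℕ) (z : R) :
    ∑ a ∈ range (p * K), ph R M a * z ^ a = ∑ c ∈ range K, ph R M (p * c) * z ^ (p * c)
      - (M : R) * ∑ a ∈ range (p * K), w R M (a - 1) * f p z a := by
  rw [← sum_mult hp (fun a => ph R M a * z ^ a) K, mul_sum, ← sum_sub_distrib]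
  apply sum_congr rfl
  intro a _
  exact ph_f h M hM z a

theorem lemA (h : Loc p R) (hp : p.Prime) {m K : ℕ} (hm : m ≠ 0) (hK : K ≠ 0) (z : R) :
    (m : R) * ((p * K : ℕ) : R) ^ 2 ∣ 2 * (V (p * (m * K)) (p * K) z - V (m * K) K (z ^ p)
      + ((p * (m * K) : ℕ) : R) * ∑ c ∈ range K, w R (m * K) c * g p z c) := by
  have hmK : m * K ≠ 0 := mul_ne_zero hm hK
  have hpmK : p * (m * K) ≠ 0 := mul_ne_zero hp.ne_zero hmK
  have hpK : p * K ≠ 0 := mul_ne_zero hp.ne_zero hK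
  rw [V_eq' _ hpmK _ hpK, V_eq' _ hmK _ hK, sum_ph h hp hpmK K z]
  have h1 := step_f h hp hmK K z
  have h2 := w_last h hp hm hK
  have h3 : (m : R) * ((p * K : ℕ) : R) ^ 2 ∣ 2 * (∑ c ∈ range K, ph R (p * (m * K)) (p * c) *
      z ^ (p * c) - ∑ c ∈ range K, ph R (m * K) c * (z ^ p) ^ c) := by
    rw [← sum_sub_distrib, mul_sum]
    apply dvd_sum
    intro c _
    have := ph_mul h hp hmK c
    have e : 2 * (ph R (p * (m * K)) (p * c) * z ^ (p * c) - ph R (m * K) c * (z ^ p) ^ c)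
        = 2 * (ph R (p * (m * K)) (p * c) - ph R (m * K) c) * z ^ (p * c) := by
      rw [pow_mul]; ring
    rw [e]
    refine Dvd.dvd.mul_right (Dvd.dvd.trans ?_ this) _
    refine ⟨(m : R), ?_⟩
    push_cast
    ring
  obtain ⟨c1, h1⟩ := h1
  obtain ⟨c2, h2⟩ := h2
  obtain ⟨c3, h3⟩ := h3
  refine ⟨c3 - c2 * z ^ (p * K) - 2 * m * c1, ?_⟩
  push_cast at h1 h2 h3 ⊢
  rw [← pow_mul z p K]
  linear_combination h3 - z ^ (p * K) * h2 - 2 * (p : R) * m * K * h1


theorem exists_kappa (v : R) (hv : (p : R) ∣ v - 1) (r : ℕ) :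
    ∃ κ : R, 1 - v ^ (p ^ r) = ((p ^ (r + 1) : ℕ) : R) * κ := by
  obtain ⟨c, hc⟩ := dvd_sub_pow_of_dvd_sub hv r
  refine ⟨-c, ?_⟩
  push_cast
  rw [one_pow] at hc
  linear_combination -hc

theorem pow_lemma (hp : p.Prime) (hp2 : p ≠ 2) (u : R) (hu : (p : R) ∣ u) :
    (p : R) * u ^ 2 ∣ (1 - u) ^ p - 1 + p * u := by
  have h3 : 3 ≤ p := by
    have := hp.two_le
    omega
  obtain ⟨n, hn⟩ := Nat.exists_eq_add_of_le h3
  have e : (1 - u) ^ p - 1 + p * u
      = ∑ j ∈ range (n + 2), (-u) ^ (j + 2) * (p.choose (j + 2) : R) := by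
    rw [sub_eq_neg_add 1 u, add_pow]
    have e1 : p + 1 = n + 2 + 1 + 1 := by omega
    rw [e1, sum_range_succ', sum_range_succ']
    simp only [one_pow, mul_one, zero_add, Nat.choose_one_right, pow_one, pow_zero,
      Nat.choose_zero_right, Nat.cast_one, add_assoc, one_add_one_eq_two]
    ring
  rw [e]
  apply dvd_sum
  intro j hj
  have hj' : j < n + 2 := mem_range.mp hj
  rcases Nat.lt_or_ge j (n + 1) with hlt | hge
  · have hd : p ∣ p.choose (j + 2) :=
      hp.dvd_choose_self (by omega) (by omega)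
    obtain ⟨c, hc⟩ := hd
    rw [hc]
    refine ⟨u ^ j * (-1) ^ (j + 2) * c, ?_⟩
    push_cast
    rw [neg_pow]
    ring
  · have hje : j = n + 1 := by omega
    subst hje
    obtain ⟨c, hc⟩ := hu
    have h2 : p.choose (n + 1 + 2) = 1 := by
      rw [hn]
      have : 3 + n = n + 1 + 2 := by ring
      rw [this, Nat.choose_self]
    rw [h2]
    refine ⟨c * u ^ n * (-1) ^ (n + 1 + 2), ?_⟩
    rw [neg_pow, Nat.cast_one, mul_one]
    have : u ^ (n + 1 + 2) = u * u ^ 2 * u ^ n := by ring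
    rw [this]
    linear_combination (-1 : R) ^ (n + 1 + 2) * u ^ 2 * u ^ n * hc

theorem kappa_compat_succ (h : Loc p R) (hp : p.Prime) (hp2 : p ≠ 2) (v : R) (κ : ℕ → R)
    (hκ : ∀ r, 1 - v ^ (p ^ r) = ((p ^ (r + 1) : ℕ) : R) * κ r) (r : ℕ) :
    ((p ^ (r + 1) : ℕ) : R) ∣ κ (r + 1) - κ r := by
  have h1 := hκ r
  have h2 := hκ (r + 1)
  have hu : (p : R) ∣ ((p ^ (r + 1) : ℕ) : R) * κ r := by
    refine ⟨(p : R) ^ r * κ r, ?_⟩
    push_cast
    ring
  obtain ⟨c, hc⟩ := pow_lemma hp hp2 _ hu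
  have e : v ^ (p ^ (r + 1)) = (1 - ((p ^ (r + 1) : ℕ) : R) * κ r) ^ p := by
    rw [← h1, pow_succ, pow_mul]
    congr 1
    ring
  rw [e] at h2
  refine ⟨-κ r ^ 2 * c, ?_⟩
  apply h.cancel (n := p ^ (r + 1 + 1)) (pow_ne_zero _ hp.ne_zero)
  push_cast at *
  linear_combination -h2 - hc

theorem kappa_compat (h : Loc p R) (hp : p.Prime) (hp2 : p ≠ 2) (v : R) (κ : ℕ → R)
    (hκ : ∀ r, 1 - v ^ (p ^ r) = ((p ^ (r + 1) : ℕ) : R) * κ r) (t k : ℕ) :
    ((p ^ (t + 1) : ℕ) : R) ∣ κ (t + k) - κ t := by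
  induction k with
  | zero => simp
  | succ k ih =>
    have h1 := kappa_compat_succ h hp hp2 v κ hκ (t + k)
    have h2 : ((p ^ (t + 1) : ℕ) : R) ∣ ((p ^ (t + k + 1) : ℕ) : R) := by
      refine ⟨(p : R) ^ k, ?_⟩
      push_cast
      ring
    have h3 := dvd_add (h2.trans h1) ih
    have e : κ (t + (k + 1)) - κ t = κ (t + k + 1) - κ (t + k) + (κ (t + k) - κ t) := by
      rw [← add_assoc]; ring
    rwa [e]

theorem blk_sub (N : ℕ) (α β : ℕ → R) (c : ℕ) :
    blk N (fun a => α a - β a) c = blk N α c - blk N β c := by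
  simp [blk, sum_sub_distrib]

theorem keyK (h : Loc p R) (hp : p.Prime) {m : ℕ} (hm : m ≠ 0) (z κ : R) (r : ℕ)
    (hcl : ∀ t < r, ((p ^ (t + 1) : ℕ) : R) ∣ F p z (p ^ (t + 1)) - κ * (1 - z ^ (p ^ (t + 1)))) :
    ((p ^ (r + 1) : ℕ) : R) ∣
      (∑ a ∈ range (p ^ r), w R (m * p ^ r) a * g p z a - κ * V (m * p ^ r) (p ^ r) (z ^ p))
      - (F p z (p ^ (r + 1)) - κ * (1 - z ^ (p ^ (r + 1)))) := by
  set β : ℕ → R := fun a => g p z a - mdl p z κ a with hβdef
  have hb : ∀ t c, ((p ^ (t + 1) : ℕ) : R) ∣ blk (p ^ t) β c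
      - z ^ (p ^ (t + 1) * c) * (F p z (p ^ (t + 1)) - κ * (1 - z ^ (p ^ (t + 1)))) := by
    intro t c
    have e1 : p * p ^ t = p ^ (t + 1) := by ring
    rw [hβdef, blk_sub, blk_g, blk_mdl, e1]
    have h1 := blk_f h (P := p ^ (t + 1)) (dvd_pow_self p (Nat.succ_ne_zero t)) z c
    convert h1 using 1
    ring
  have hβ : ∀ t < r, ∀ c, ((p ^ (t + 1) : ℕ) : R) ∣ blk (p ^ t) β c := by
    intro t ht c
    have h1 := hb t c
    have h2 := Dvd.dvd.mul_left (hcl t ht) (z ^ (p ^ (t + 1) * c))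
    have h3 := dvd_add h1 h2
    rwa [sub_add_cancel] at h3
  have h1 := block h hp hm β r hβ 0
  simp only [zero_add, pow_zero, range_one, sum_singleton, mul_one, w_zero, one_mul] at h1
  have h2 := hb r 0
  simp only [mul_zero, pow_zero, one_mul] at h2
  have h3 := dvd_add h1 h2
  have e : ∑ a ∈ range (p ^ r), w R (m * p ^ r) a * β a
      = ∑ a ∈ range (p ^ r), w R (m * p ^ r) a * g p z a
        - κ * V (m * p ^ r) (p ^ r) (z ^ p) := by
    rw [V, mul_sum, ← sum_sub_distrib]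
    apply sum_congr rfl
    intro a _
    rw [hβdef]
    simp only [mdl, ← pow_mul]
    ring
  rw [e] at h3
  convert h3 using 1
  ring

theorem two_unit (h : Loc p R) (hp : p.Prime) (hp2 : p ≠ 2) : IsUnit (2 : R) := by
  have := h.unit 2 (fun hd => hp2 ((Nat.prime_dvd_prime_iff_eq hp Nat.prime_two).mp hd))
  simpa using this

theorem claims (h : Loc p R) (hp : p.Prime) (hp2 : p ≠ 2) (z v : R)
    (hv : (1 - z) ^ p = v * (1 - z ^ p)) (κ : ℕ → R)
    (hκ : ∀ r, 1 - v ^ (p ^ r) = ((p ^ (r + 1) : ℕ) : R) * κ r) (r : ℕ) :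
    ((p ^ (r + 1) : ℕ) : R) ∣ F p z (p ^ (r + 1)) - κ r * (1 - z ^ (p ^ (r + 1))) := by
  induction r using Nat.strong_induction_on with
  | _ r ih =>
    have hq : p ^ r ≠ 0 := pow_ne_zero _ hp.ne_zero
    have hcl : ∀ t < r, ((p ^ (t + 1) : ℕ) : R) ∣
        F p z (p ^ (t + 1)) - κ r * (1 - z ^ (p ^ (t + 1))) := by
      intro t ht
      obtain ⟨k, rfl⟩ := Nat.exists_eq_add_of_lt ht
      have h1 := ih t ht
      have h2 := kappa_compat h hp hp2 v κ hκ t (k + 1)
      have h3 := dvd_sub h1 (Dvd.dvd.mul_right h2 (1 - z ^ (p ^ (t + 1))))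
      convert h3 using 1
      rw [← add_assoc]
      ring
    have h1 := keyK h hp one_ne_zero z (κ r) r hcl
    have h2 := lemA h hp one_ne_zero hq z
    simp only [one_mul, Nat.cast_one] at h1 h2
    have e1 : p * p ^ r = p ^ (r + 1) := by ring
    rw [e1] at h2
    have e2 : V (p ^ (r + 1)) (p ^ (r + 1)) z
        = (1 - ((p ^ (r + 1) : ℕ) : R) * κ r) * V (p ^ r) (p ^ r) (z ^ p) := by
      rw [V_full _ (pow_ne_zero _ hp.ne_zero), V_full _ hq, ← hκ r]
      have : p ^ (r + 1) = p * p ^ r := by ring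
      rw [this, pow_mul, hv, mul_pow]
      ring
    rw [e2] at h2
    have h3 : ((p ^ (r + 1) : ℕ) : R) ∣ 2 * (∑ a ∈ range (p ^ r), w R (p ^ r) a * g p z a
        - κ r * V (p ^ r) (p ^ r) (z ^ p)) := by
      apply h.cancel_dvd (n := p ^ (r + 1)) (pow_ne_zero _ hp.ne_zero)
      convert h2 using 1
      · ring
      · ring
    rw [(two_unit h hp hp2).dvd_mul_left] at h3
    have h4 := dvd_sub h3 h1
    convert h4 using 1
    ring

theorem pow_one_sub (x : R) (m : ℕ) : x ^ 2 ∣ (1 - x) ^ m - (1 - m * x) := by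
  induction m with
  | zero => simp
  | succ m ih =>
    obtain ⟨c, hc⟩ := ih
    refine ⟨c * (1 - x) + m, ?_⟩
    push_cast
    rw [pow_succ]
    linear_combination (1 - x) * hc

/-- The main congruence for odd primes. -/
theorem main_odd (h : Loc p R) (hp : p.Prime) (hp2 : p ≠ 2) (z v : R)
    (hv : (1 - z) ^ p = v * (1 - z ^ p)) (hv1 : (p : R) ∣ v - 1) {m : ℕ} (hm : m ≠ 0) (r : ℕ) :
    ((p ^ (r + 1) : ℕ) : R) ^ 2 ∣ V (m * p ^ (r + 1)) (p ^ (r + 1)) z
      - (v ^ (p ^ r)) ^ m * V (m * p ^ r) (p ^ r) (z ^ p) := by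
  choose κ hκ using exists_kappa v hv1
  have hq : p ^ r ≠ 0 := pow_ne_zero _ hp.ne_zero
  have hcl : ∀ t < r + 1, ((p ^ (t + 1) : ℕ) : R) ∣
      F p z (p ^ (t + 1)) - κ r * (1 - z ^ (p ^ (t + 1))) := by
    intro t ht
    obtain ⟨k, rfl⟩ := Nat.exists_eq_add_of_le (Nat.lt_succ_iff.mp ht)
    have h1 := claims h hp hp2 z v hv κ hκ t
    have h2 := kappa_compat h hp hp2 v κ hκ t k
    have h3 := dvd_sub h1 (Dvd.dvd.mul_right h2 (1 - z ^ (p ^ (t + 1))))
    convert h3 using 1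
    ring
  have h1 := keyK h hp hm z (κ r) r (fun t ht => hcl t (Nat.lt_succ_of_lt ht))
  have h1' := dvd_add h1 (hcl r (Nat.lt_succ_self r))
  rw [sub_add_cancel] at h1'
  have h2 := lemA h hp hm hq z
  have e1 : p * (m * p ^ r) = m * p ^ (r + 1) := by ring
  have e1' : p * p ^ r = p ^ (r + 1) := by ring
  rw [e1, e1'] at h2
  have h2' := (Dvd.intro_left _ rfl : ((p ^ (r + 1) : ℕ) : R) ^ 2 ∣
    (m : R) * ((p ^ (r + 1) : ℕ) : R) ^ 2).trans h2
  rw [(two_unit h hp hp2).dvd_mul_left] at h2'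
  have h3 := pow_one_sub (((p ^ (r + 1) : ℕ) : R) * κ r) m
  have e3 : v ^ (p ^ r) = 1 - ((p ^ (r + 1) : ℕ) : R) * κ r := by rw [← hκ r]; ring
  rw [e3]
  obtain ⟨c1, h1'⟩ := h1'
  obtain ⟨c2, h2'⟩ := h2'
  obtain ⟨c3, h3⟩ := h3
  refine ⟨c2 - m * c1 - κ r ^ 2 * c3 * V (m * p ^ r) (p ^ r) (z ^ p), ?_⟩
  push_cast at h1' h2' h3 ⊢
  linear_combination h2' - (m : R) * (p : R) ^ (r + 1) * h1' - V (m * p ^ r) (p ^ r) (z ^ p) * h3


/-- the antisymmetrised truncated sum. -/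
def D (x y : R) (n : ℕ) : R := x ^ n * V (2 * n) n (-y) - y ^ n * V (2 * n) n (-x)

/-- the weighted sum of central binomial coefficients. -/
def T (s : R) (n : ℕ) : R := ∑ k ∈ range n, (2 + s) ^ (n - 1 - k) * ((2 * k).choose k : R)

theorem T_succ (s : R) (n : ℕ) :
    T s (n + 1) = (2 + s) * T s n + ((2 * n).choose n : R) := by
  rw [T, sum_range_succ, T, mul_sum]
  have e : n + 1 - 1 - n = 0 := by omega
  rw [e, pow_zero, one_mul]
  congr 1
  apply sum_congr rfl
  intro k hk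
  have hk' : k < n := mem_range.mp hk
  have e : n + 1 - 1 - k = (n - 1 - k) + 1 := by omega
  rw [e, pow_succ]
  ring

theorem S_eq (x y : R) (hxy : x * y = 1) (n : ℕ) :
    ∑ j ∈ range n, ((2 * n).choose (n + 1 + j) : R) * (x ^ (j + 1) - y ^ (j + 1))
      = (x - y) * T (x + y) n := by
  induction n with
  | zero => simp [T]
  | succ n ih =>
    rw [T_succ]
    have hz : ∀ i, n ≤ i → ((2 * n).choose (n + 1 + i) : R) = 0 := by
      intro i hi
      rw [Nat.choose_eq_zero_of_lt (by omega), Nat.cast_zero]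
    have hc : ∀ j, ((2 * (n + 1)).choose (n + 1 + 1 + j) : R)
        = ((2 * n).choose (n + 1 + (j + 1)) : R) + 2 * ((2 * n).choose (n + 1 + j) : R)
          + ((2 * n).choose (n + j) : R) := by
      intro j
      have e1 : 2 * (n + 1) = (2 * n + 1) + 1 := by ring
      have e2 : n + 1 + 1 + j = (n + j + 1) + 1 := by ring
      have e3 : n + 1 + (j + 1) = (n + j + 1) + 1 := by ring
      have e4 : n + 1 + j = n + j + 1 := by ring
      rw [e1, e2, e3, e4, Nat.choose_succ_succ, Nat.choose_succ_succ (2 * n) (n + j),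
        Nat.choose_succ_succ (2 * n) (n + j + 1)]
      push_cast
      ring
    have A1 : ∑ j ∈ range (n + 1), ((2 * n).choose (n + 1 + (j + 1)) : R) *
        (x ^ (j + 1) - y ^ (j + 1))
        = ∑ j ∈ range n, ((2 * n).choose (n + 1 + j) : R) * (x ^ j - y ^ j) := by
      have a := sum_range_succ' (fun j => ((2 * n).choose (n + 1 + j) : R) * (x ^ j - y ^ j)) (n + 1)
      have b := sum_range_succ (fun j => ((2 * n).choose (n + 1 + j) : R) * (x ^ j - y ^ j)) (n + 1)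
      have c := sum_range_succ (fun j => ((2 * n).choose (n + 1 + j) : R) * (x ^ j - y ^ j)) n
      simp only [pow_zero, sub_self, mul_zero, add_zero] at a
      rw [← a, b, c, hz n le_rfl, hz (n + 1) (Nat.le_succ n)]
      ring
    have A2 : ∑ j ∈ range (n + 1), ((2 * n).choose (n + 1 + j) : R) *
        (x ^ (j + 1) - y ^ (j + 1))
        = ∑ j ∈ range n, ((2 * n).choose (n + 1 + j) : R) * (x ^ (j + 1) - y ^ (j + 1)) := by
      rw [sum_range_succ, hz n le_rfl]
      ring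
    have A3 : ∑ j ∈ range (n + 1), ((2 * n).choose (n + j) : R) * (x ^ (j + 1) - y ^ (j + 1))
        = ∑ j ∈ range n, ((2 * n).choose (n + 1 + j) : R) * (x ^ (j + 2) - y ^ (j + 2))
          + ((2 * n).choose n : R) * (x - y) := by
      rw [sum_range_succ']
      congr 1
      · apply sum_congr rfl
        intro j _
        have e4 : n + 1 + j = n + (j + 1) := by ring
        rw [e4]
      · simp
    have key : ∑ j ∈ range (n + 1), ((2 * (n + 1)).choose (n + 1 + 1 + j) : R) *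
        (x ^ (j + 1) - y ^ (j + 1))
        = ∑ j ∈ range n, ((2 * n).choose (n + 1 + j) : R) * (x ^ j - y ^ j)
          + 2 * ∑ j ∈ range n, ((2 * n).choose (n + 1 + j) : R) * (x ^ (j + 1) - y ^ (j + 1))
          + (∑ j ∈ range n, ((2 * n).choose (n + 1 + j) : R) * (x ^ (j + 2) - y ^ (j + 2))
          + ((2 * n).choose n : R) * (x - y)) := by
      rw [← A1, ← A2, ← A3, mul_sum, ← sum_add_distrib, ← sum_add_distrib]
      apply sum_congr rfl
      intro j _
      rw [hc]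
      ring
    rw [key]
    have e5 : ∑ j ∈ range n, ((2 * n).choose (n + 1 + j) : R) * (x ^ j - y ^ j)
        + ∑ j ∈ range n, ((2 * n).choose (n + 1 + j) : R) * (x ^ (j + 2) - y ^ (j + 2))
        = (x + y) * ∑ j ∈ range n, ((2 * n).choose (n + 1 + j) : R) *
          (x ^ (j + 1) - y ^ (j + 1)) := by
      rw [mul_sum, ← sum_add_distrib]
      apply sum_congr rfl
      intro j _
      linear_combination -((2 * n).choose (n + 1 + j) : R) * (x ^ j - y ^ j) * hxy
    linear_combination e5 + (2 + (x + y)) * ih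

theorem D_eq (x y : R) (hxy : x * y = 1) (n : ℕ) (hn : n ≠ 0) :
    D x y n = (x - y) * T (x + y) n := by
  rw [← S_eq x y hxy n, D, V_eq' _ (mul_ne_zero two_ne_zero hn) _ hn,
    V_eq' _ (mul_ne_zero two_ne_zero hn) _ hn]
  have h1 : ∀ u t : R, u * t = 1 → u ^ n * (∑ a ∈ range n, ph R (2 * n) a * (-t) ^ a
      - w R (2 * n) (n - 1) * (-t) ^ n)
      = ∑ j ∈ range n, ((2 * n).choose (n + 1 + j) : R) * u ^ (j + 1)
        + ((2 * n - 1).choose (n - 1) : R) := by
    intro u t hut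
    have h2 : ∑ j ∈ range n, ((2 * n).choose (n + 1 + j) : R) * u ^ (j + 1)
        = ∑ a ∈ range n, ((2 * n).choose a : R) * u ^ (n - a) := by
      rw [← sum_range_reflect (fun a => ((2 * n).choose a : R) * u ^ (n - a))]
      apply sum_congr rfl
      intro j hj
      have hj' : j < n := mem_range.mp hj
      have e1 : n - (n - 1 - j) = j + 1 := by omega
      have e2 : (2 * n).choose (n - 1 - j) = (2 * n).choose (n + 1 + j) := by
        rw [← Nat.choose_symm (by omega : n - 1 - j ≤ 2 * n)]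
        congr 1
        omega
      rw [e1, e2]
    rw [h2, mul_sub, mul_sum]
    have e3 : u ^ n * (w R (2 * n) (n - 1) * (-t) ^ n) = -((2 * n - 1).choose (n - 1) : R) := by
      obtain ⟨k, rfl⟩ := Nat.exists_eq_succ_of_ne_zero hn
      simp only [Nat.succ_eq_add_one, w, Nat.add_sub_cancel]
      have e4 : u ^ (k + 1) * t ^ (k + 1) = 1 := by rw [← mul_pow, hut, one_pow]
      have e5 : ((-1 : R) ^ k) * (-1) ^ (k + 1) = -1 := by
        rw [← pow_add, ← add_assoc, ← two_mul, pow_succ, pow_mul]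
        simp
      rw [neg_pow t]
      have e6 : u ^ (k + 1) * ((-1) ^ k * ((2 * (k + 1) - 1).choose k : R) *
          ((-1) ^ (k + 1) * t ^ (k + 1))) = (u ^ (k + 1) * t ^ (k + 1)) *
            (((-1 : R) ^ k) * (-1) ^ (k + 1)) * ((2 * (k + 1) - 1).choose k : R) := by ring
      rw [e6, e4, e5]
      ring
    rw [e3, sub_neg_eq_add]
    congr 1
    apply sum_congr rfl
    intro a ha
    have ha' : a < n := mem_range.mp ha
    have e7 : u ^ n = u ^ (n - a) * u ^ a := by rw [← pow_add]; congr 1; omega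
    have e8 : u ^ a * t ^ a = 1 := by rw [← mul_pow, hut, one_pow]
    have e9 : (-1 : R) ^ a * (-1) ^ a = 1 := by rw [← mul_pow]; simp
    rw [ph, e7, neg_pow t]
    have e10 : u ^ (n - a) * u ^ a * ((-1) ^ a * ((2 * n).choose a : R) * ((-1) ^ a * t ^ a))
        = (u ^ a * t ^ a) * ((-1 : R) ^ a * (-1) ^ a) * (((2 * n).choose a : R) * u ^ (n - a)) := by
      ring
    rw [e10, e8, e9]
    ring
  rw [h1 x y hxy, h1 y x (by rw [mul_comm]; exact hxy)]
  simp only [mul_sub, sum_sub_distrib]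
  ring

/-- The congruence at odd primes for the antisymmetrised sums. -/
theorem final_odd_D (h : Loc p R) (hp : p.Prime) (hp2 : p ≠ 2) (x y v : R)
    (hy : (1 + y) ^ p = v * (1 + y ^ p)) (hx : (1 + x) ^ p = v * (1 + x ^ p))
    (hv1 : (p : R) ∣ v - 1) (r : ℕ) :
    ((p ^ (r + 1) : ℕ) : R) ^ 2 ∣ D x y (p ^ (r + 1))
      - (v ^ (p ^ r)) ^ 2 * D (x ^ p) (y ^ p) (p ^ r) := by
  have hodd : Odd p := hp.odd_of_ne_two hp2
  have h1 := main_odd h hp hp2 (-y) v (by rw [hodd.neg_pow, sub_neg_eq_add, sub_neg_eq_add, hy])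
    hv1 two_ne_zero r
  have h2 := main_odd h hp hp2 (-x) v (by rw [hodd.neg_pow, sub_neg_eq_add, sub_neg_eq_add, hx])
    hv1 two_ne_zero r
  rw [D, D]
  have h3 := dvd_sub (Dvd.dvd.mul_left h1 (x ^ (p ^ (r + 1)))) (Dvd.dvd.mul_left h2 (y ^ (p ^ (r + 1))))
  rw [hodd.neg_pow, hodd.neg_pow] at h3
  have e4 : ∀ u : R, (u ^ p) ^ (p ^ r) = u ^ (p ^ (r + 1)) := by
    intro u
    rw [← pow_mul]
    congr 1
    ring
  rw [e4, e4]
  convert h3 using 1
  ring

/-- Final form of the congruence at odd primes. -/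
theorem final_odd (h : Loc p R) (hp : p.Prime) (hp2 : p ≠ 2) (x y v χ : R) (hxy : x * y = 1)
    (hy : (1 + y) ^ p = v * (1 + y ^ p)) (hx : (1 + x) ^ p = v * (1 + x ^ p))
    (hv1 : (p : R) ∣ v - 1) (hs : x ^ p + y ^ p = x + y) (hd : x ^ p - y ^ p = χ * (x - y))
    (r : ℕ) :
    ((p ^ (r + 1) : ℕ) : R) ^ 2 ∣ (x - y) * (T (x + y) (p ^ (r + 1))
      - χ * (v ^ (p ^ r)) ^ 2 * T (x + y) (p ^ r)) := by
  have hxy' : x ^ p * y ^ p = 1 := by rw [← mul_pow, hxy, one_pow]
  have e1 := D_eq x y hxy (p ^ (r + 1)) (pow_ne_zero _ hp.ne_zero)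
  have e2 := D_eq (x ^ p) (y ^ p) hxy' (p ^ r) (pow_ne_zero _ hp.ne_zero)
  rw [hs, hd] at e2
  have h1 := final_odd_D h hp hp2 x y v hy hx hv1 r
  rw [e1, e2] at h1
  convert h1 using 1
  ring

end

section two
variable {R : Type*} [CommRing R]

theorem cube_one (y : R) (hy : 1 + y + y ^ 2 = 0) : y ^ 3 = 1 := by
  linear_combination (y - 1) * hy

theorem pow_root (y : R) (hy : 1 + y + y ^ 2 = 0) {P : ℕ} (hP : ¬ 3 ∣ P) :
    1 + y ^ P + y ^ (2 * P) = 0 := by
  have hy3 := cube_one y hy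
  have key : ∀ k a, y ^ (3 * k + a) = y ^ a := by
    intro k a
    rw [pow_add, pow_mul, hy3, one_pow, one_mul]
  obtain ⟨k, hk⟩ : ∃ k, P = 3 * k + 1 ∨ P = 3 * k + 2 := ⟨P / 3, by omega⟩
  rcases hk with rfl | rfl
  · have e : 2 * (3 * k + 1) = 3 * (2 * k) + 2 := by ring
    rw [e, key, key, pow_one]
    exact hy
  · have e : 2 * (3 * k + 2) = 3 * (2 * k + 1) + 1 := by ring
    rw [e, key, key, pow_one]
    linear_combination hy

theorem F_double (h : Loc 2 R) (y : R) {P : ℕ} (hP : 2 ∣ P) :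
    (P : R) ∣ F 2 y (2 * P) - (1 + y ^ P) * F 2 y P := by
  have h1 := blk_f h hP y 1
  have e : F 2 y (2 * P) = F 2 y P + blk P (f 2 y) 1 := by
    rw [two_mul, F, sum_range_add, ← F, blk]
    simp only [mul_one]
  rw [e]
  rw [mul_one] at h1
  convert h1 using 1
  ring

theorem F_reflect (h : Loc 2 R) (y : R) (hy3 : y ^ 3 = 1) {P : ℕ} (hP : 2 ∣ P) :
    (P : R) ∣ F 2 (y ^ 2) P + y ^ (2 * P) * F 2 y P := by
  have h1 : ∑ j ∈ range P, f 2 (y ^ 2) (j + 1) = F 2 (y ^ 2) P := by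
    have a := sum_range_succ (f 2 (y ^ 2)) P
    have b := sum_range_succ' (f 2 (y ^ 2)) P
    have c : f 2 (y ^ 2) P = 0 := by simp [f, hP]
    have d : f 2 (y ^ 2) 0 = 0 := by simp [f]
    rw [c, add_zero] at a
    rw [d, add_zero] at b
    rw [← b, a, F]
  have h2 : ∑ j ∈ range P, f 2 (y ^ 2) (P - 1 - j + 1) = ∑ j ∈ range P, f 2 (y ^ 2) (j + 1) :=
    sum_range_reflect (fun j => f 2 (y ^ 2) (j + 1)) P
  rw [← h1, ← h2, F, mul_sum, ← sum_add_distrib]
  apply dvd_sum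
  intro j hj
  have hj' : j < P := mem_range.mp hj
  have e1 : P - 1 - j + 1 = P - j := by omega
  rw [e1]
  unfold f
  by_cases hpj : 2 ∣ j
  · have : 2 ∣ P - j := Nat.dvd_sub hP hpj
    simp [hpj, this]
  · have hpn : ¬ 2 ∣ P - j := by omega
    rw [if_neg hpj, if_neg hpn]
    have a1 := h.mul_iv hpj
    have a2 := h.mul_iv hpn
    rw [Nat.cast_sub hj'.le] at a2
    have e2 : (y ^ 2) ^ (P - j) = y ^ (2 * P) * y ^ j := by
      have e3 : (y ^ 2) ^ (P - j) * (y ^ 2) ^ j = y ^ (2 * P) := by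
        rw [← pow_add, ← pow_mul]
        congr 1
        omega
      have e4 : (y ^ 2) ^ j * y ^ j = 1 := by
        rw [← mul_pow, ← pow_succ, hy3, one_pow]
      linear_combination y ^ j * e3 - (y ^ 2) ^ (P - j) * e4
    rw [e2]
    refine ⟨y ^ (2 * P) * y ^ j * iv R j * iv R (P - j), ?_⟩
    linear_combination y ^ (2 * P) * y ^ j * (-(iv R (P - j)) * a1 - iv R j * a2)

theorem F_two (h : Loc 2 R) (y : R) (hy : 1 + y + y ^ 2 = 0) (t : ℕ) :
    ((2 ^ (t + 1) : ℕ) : R) ∣ F 2 y (2 * 2 ^ (t + 1)) - F 2 (y ^ 2) (2 ^ (t + 1)) := by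
  have hP : 2 ∣ 2 ^ (t + 1) := dvd_pow_self 2 (Nat.succ_ne_zero t)
  have h3 : ¬ 3 ∣ 2 ^ (t + 1) := by
    intro hh
    have := Nat.Prime.dvd_of_dvd_pow Nat.prime_three hh
    omega
  have h1 := F_double h y hP
  have h2 := F_reflect h y (cube_one y hy) hP
  have h4 := dvd_sub h1 h2
  have h5 := pow_root y hy h3
  convert h4 using 1
  linear_combination F 2 y (2 ^ (t + 1)) * h5

theorem V_neg (h : Loc 2 R) {M : ℕ} (hM : M ≠ 0) {K : ℕ} (hK : K ≠ 0) (x : R) :
    2 * ((2 * M : ℕ) : R) * M ∣ V (2 * M) (2 * K) x - V (2 * M) (2 * K) (-x)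
      + 2 * ((2 * M : ℕ) : R) * ∑ c ∈ range K, w R M c * g 2 x c := by
  have h2M : 2 * M ≠ 0 := mul_ne_zero two_ne_zero hM
  have h2K : 2 * K ≠ 0 := mul_ne_zero two_ne_zero hK
  have hp := Nat.prime_two
  have h1 := step_f h hp hM K x
  have e1 : (-x) ^ (2 * K) = x ^ (2 * K) := by rw [pow_mul, neg_sq, ← pow_mul]
  have e2 : ∑ a ∈ range (2 * K), ph R (2 * M) a * (-x) ^ a
      = ∑ a ∈ range (2 * K), ph R (2 * M) a * x ^ a
        + 2 * ((2 * M : ℕ) : R) * ∑ a ∈ range (2 * K), w R (2 * M) (a - 1) * f 2 x a := by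
    rw [sum_ph h hp h2M K x, sum_ph h hp h2M K (-x)]
    have e3 : ∀ c, (-x) ^ (2 * c) = x ^ (2 * c) := by
      intro c
      rw [pow_mul, neg_sq, ← pow_mul]
    have e4 : ∀ a, f 2 (-x) a = -f 2 x a := by
      intro a
      unfold f
      split_ifs with hd
      · simp
      · rw [Odd.neg_pow (by rw [Nat.odd_iff]; omega)]
        ring
    simp only [e3, e4, mul_neg, sum_neg_distrib]
    ring
  rw [V_eq' _ h2M _ h2K, V_eq' _ h2M _ h2K, e1, e2]
  obtain ⟨c, hc⟩ := h1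
  refine ⟨-2 * c, ?_⟩
  push_cast at hc ⊢
  linear_combination -4 * (M : R) * hc

/-- The step for the prime two. -/
theorem V_two (h : Loc 2 R) (y : R) (hy : 1 + y + y ^ 2 = 0) (r : ℕ) :
    ((2 ^ (r + 2) : ℕ) : R) ^ 2 ∣ V (2 * 2 ^ (r + 2)) (2 ^ (r + 2)) (-y)
      - V (2 * 2 ^ (r + 1)) (2 ^ (r + 1)) (-(y ^ 2)) := by
  have hp := Nat.prime_two
  have hK : 2 ^ (r + 1) ≠ 0 := pow_ne_zero _ two_ne_zero
  have hr : 2 ^ r ≠ 0 := pow_ne_zero _ two_ne_zero
  -- first comparison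
  have h1 := lemA h hp two_ne_zero hK (-y)
  have e1 : 2 * (2 * 2 ^ (r + 1)) = 2 * 2 ^ (r + 2) := by ring
  have e1' : 2 * 2 ^ (r + 1) = 2 ^ (r + 2) := by ring
  have h1' : ((2 ^ (r + 2) : ℕ) : R) ^ 2 ∣ V (2 * 2 ^ (r + 2)) (2 ^ (r + 2)) (-y)
      - V (2 ^ (r + 2)) (2 ^ (r + 1)) (y ^ 2)
      + ((2 * 2 ^ (r + 2) : ℕ) : R) * ∑ c ∈ range (2 ^ (r + 1)), w R (2 ^ (r + 2)) c * g 2 (-y) c := by
    apply h.cancel_dvd (n := 2) two_ne_zero
    rw [e1, e1', neg_sq] at h1
    exact_mod_cast h1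
  -- second comparison
  have h2 := V_neg h hK hr (y ^ 2)
  have e2' : 2 * 2 ^ r = 2 ^ (r + 1) := by ring
  rw [e1', e2'] at h2
  -- reduce first sum
  have h3 := step h hp hK (2 ^ r) (g 2 y) 1 (fun c => one_dvd _)
  rw [mul_one, e1', e2'] at h3
  have e4 : ∀ c, g 2 (-y) c = -g 2 y c := by
    intro c
    rw [g, g, ← sum_neg_distrib]
    apply sum_congr rfl
    intro b _
    unfold f
    split_ifs with hd
    · simp
    · rw [Odd.neg_pow (by rw [Nat.odd_iff]; omega)]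
      ring
  simp only [e4, mul_neg, sum_neg_distrib] at h1'
  -- block lemma for the difference
  set β : ℕ → R := fun a => blk 2 (g 2 y) a - g 2 (y ^ 2) a with hβdef
  have hβ : ∀ t c, ((2 ^ (t + 1) : ℕ) : R) ∣ blk (2 ^ t) β c := by
    intro t c
    have a1 : blk (2 ^ t) (blk 2 (g 2 y)) c = blk (2 * 2 ^ (t + 1)) (f 2 y) c := by
      rw [← blk_mul, blk_g]
      congr 1
      ring
    have a2 : blk (2 ^ t) (g 2 (y ^ 2)) c = blk (2 ^ (t + 1)) (f 2 (y ^ 2)) c := by
      rw [blk_g]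
      congr 1
      ring
    rw [hβdef, blk_sub, a1, a2]
    have hP : 2 ∣ 2 ^ (t + 1) := dvd_pow_self 2 (Nat.succ_ne_zero t)
    have b1 := blk_f h (Dvd.dvd.mul_left hP 2) y c
    have b2 := blk_f h hP (y ^ 2) c
    have b3 := F_two h y hy t
    have b1' : ((2 ^ (t + 1) : ℕ) : R) ∣ blk (2 * 2 ^ (t + 1)) (f 2 y) c
        - y ^ (2 * 2 ^ (t + 1) * c) * F 2 y (2 * 2 ^ (t + 1)) := by
      refine Dvd.dvd.trans ?_ b1
      push_cast
      exact Dvd.intro_left _ rfl
    have e5 : (y ^ 2) ^ (2 ^ (t + 1) * c) = y ^ (2 * 2 ^ (t + 1) * c) := by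
      rw [← pow_mul]; congr 1; ring
    rw [e5] at b2
    have b4 := dvd_add (dvd_sub b1' b2) (Dvd.dvd.mul_left b3 (y ^ (2 * 2 ^ (t + 1) * c)))
    convert b4 using 1
    ring
  have h5 := block h hp two_ne_zero β r (fun t _ c => hβ t c) 0
  simp only [zero_add, pow_zero, range_one, sum_singleton, mul_one, w_zero, one_mul] at h5
  have h6 := dvd_add h5 (hβ r 0)
  rw [sub_add_cancel] at h6
  have e7 : ∑ a ∈ range (2 ^ r), w R (2 * 2 ^ r) a * β a
      = ∑ a ∈ range (2 ^ r), w R (2 ^ (r + 1)) a * blk 2 (g 2 y) a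
        - ∑ a ∈ range (2 ^ r), w R (2 ^ (r + 1)) a * g 2 (y ^ 2) a := by
    rw [← sum_sub_distrib, e2']
    apply sum_congr rfl
    intro a _
    rw [hβdef]
    ring
  rw [e7] at h6
  rw [e1']
  obtain ⟨c1, h1'⟩ := h1'
  obtain ⟨c2, h2⟩ := h2
  obtain ⟨c3, h3⟩ := h3
  obtain ⟨c6, h6⟩ := h6
  refine ⟨c1 + c2 + 2 * c3 + c6, ?_⟩
  push_cast at h1' h2 h3 h6 ⊢
  linear_combination h1' + h2 + 2 * (2 : R) ^ (r + 2) * h3 + 2 * (2 : R) ^ (r + 2) * h6

theorem final_two (h : Loc 2 R) (x y : R) (hxy : x * y = 1) (hs : x + y = -1) (r : ℕ) :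
    ((2 ^ (r + 2) : ℕ) : R) ^ 2 ∣ (x - y) * (T (x + y) (2 ^ (r + 2)) + T (x + y) (2 ^ (r + 1))) := by
  have hx : 1 + x + x ^ 2 = 0 := by
    linear_combination x * hs - hxy
  have hy : 1 + y + y ^ 2 = 0 := by
    linear_combination y * hs - hxy
  have hx2 : x ^ 2 = y := by linear_combination hx - hs
  have hy2 : y ^ 2 = x := by linear_combination hy - hs
  have h1 := V_two h y hy r
  have h2 := V_two h x hx r
  rw [hy2] at h1
  rw [hx2] at h2
  have h3 := dvd_sub (Dvd.dvd.mul_left h1 (x ^ (2 ^ (r + 2))))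
    (Dvd.dvd.mul_left h2 (y ^ (2 ^ (r + 2))))
  have e1 := D_eq x y hxy (2 ^ (r + 2)) (pow_ne_zero _ two_ne_zero)
  have e2 := D_eq x y hxy (2 ^ (r + 1)) (pow_ne_zero _ two_ne_zero)
  have e3 : x ^ (2 ^ (r + 2)) = y ^ (2 ^ (r + 1)) := by
    rw [← hx2, ← pow_mul]; congr 1; ring
  have e4 : y ^ (2 ^ (r + 2)) = x ^ (2 ^ (r + 1)) := by
    rw [← hy2, ← pow_mul]; congr 1; ring
  have e5 : (x - y) * (T (x + y) (2 ^ (r + 2)) + T (x + y) (2 ^ (r + 1)))
      = D x y (2 ^ (r + 2)) + D x y (2 ^ (r + 1)) := by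
    rw [e1, e2]; ring
  rw [e5, D, D]
  convert h3 using 1
  rw [e3, e4]
  ring

end two

section padic
variable {p : ℕ} [hpf : Fact p.Prime]

theorem padic_loc (a b : ℤ_[p]) : Loc p (QuadraticAlgebra ℤ_[p] a b) where
  unit := by
    intro l hl
    have h1 : IsUnit (l : ℤ_[p]) := by
      rw [PadicInt.isUnit_iff, PadicInt.norm_natCast_eq_one_iff]
      exact (Nat.Prime.coprime_iff_not_dvd hpf.out).mpr hl
    have := h1.map (algebraMap ℤ_[p] (QuadraticAlgebra ℤ_[p] a b))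
    simpa using this
  reg := by
    intro n hn x hx
    have hn' : (n : ℤ_[p]) ≠ 0 := by exact_mod_cast hn
    have h1 := congrArg QuadraticAlgebra.re hx
    have h2 := congrArg QuadraticAlgebra.im hx
    simp only [QuadraticAlgebra.re_mul, QuadraticAlgebra.im_mul, QuadraticAlgebra.re_natCast,
      QuadraticAlgebra.im_natCast, QuadraticAlgebra.re_zero, QuadraticAlgebra.im_zero, zero_mul,
      mul_zero, add_zero] at h1 h2
    ext
    · simpa [hn'] using h1
    · simpa [hn'] using h2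

theorem dvd_parts {a b : ℤ_[p]} {n : ℕ} {x : QuadraticAlgebra ℤ_[p] a b}
    (h : (n : QuadraticAlgebra ℤ_[p] a b) ∣ x) :
    (n : ℤ_[p]) ∣ x.re ∧ (n : ℤ_[p]) ∣ x.im := by
  obtain ⟨c, rfl⟩ := h
  constructor
  · simp [QuadraticAlgebra.re_mul]
  · simp [QuadraticAlgebra.im_mul]

theorem int_dvd_of_padic {k : ℕ} {a : ℤ} (h : ((p ^ k : ℕ) : ℤ_[p]) ∣ (a : ℤ_[p])) :
    ((p ^ k : ℕ) : ℤ) ∣ a := by
  have := PadicInt.pow_p_dvd_int_iff (p := p) k a
  push_cast at h ⊢
  exact this.mp h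

end padic

end Pool.Agent.Lib_helper24.Dwork
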